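import Pool.Agent.MP_bdabc0_co.Proof

namespace Pool.Agent.Results.MP_bdabc0_co.Counterexample

open Pool.Agent.MP_bdabc0_co

/-- There are non-increasing weights `w` and a relaxation `c ≤ b` of condition (S) such that, for
every `d ≥ 4`, the relaxation is strict and every non-increasing integer tuple `C` satisfying the
relaxed inequalities gives a feasible problem `BP(d, C; w)`.
Witness: `w = (7, 6, 4, 4, 0)`, `b = (5, 5, 6, 3, 0)`, `c = (4, 5, 6, 3, 0)`. -/
theorem result :
    ∃ (n : ℕ) (w : Fin n → ℕ) (c : Fin n → ℤ),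
      1 ≤ n ∧ Antitone w ∧ (∀ i, c i ≤ bSuffix w i) ∧
        ∀ d : ℕ, 4 ≤ d →
          region d w (bSuffix w) ⊂ region d w c ∧ ∀ C ∈ region d w c, Feasible d C w := by
  refine ⟨5, w5, c5, by norm_num, by decide, ?_, fun d hd =>
    ⟨strict_region d hd, feasible_of_region d hd⟩⟩
  rw [bSuffix_w5]
  decide

end Pool.Agent.Results.MP_bdabc0_co.Counterexample
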